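import Mathlib

/-!
# Complete Pick pairs are stable under multiplication of the second kernel

If `(k, ℓ)` is a complete Pick pair of kernels on `X` and `h` is a kernel on `X`, then
`(k, ℓ h)` is a complete Pick pair.

Idea of the proof.  One first shows, by induction on the number of nodes, that a complete Pick
pair has the tangential (Leech type) interpolation property: every finite family of tangential
conditions `Φ(z)^* v = b` that satisfies the obvious positivity condition can be completed to full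
interpolation data on the same nodes satisfying the full positivity condition.  One condition is
added at a time; the existence of the new vector is a minimax argument (a form of Parrott's
theorem), whose hypothesis is verified with the help of the complete Pick property applied to the
remaining nodes.  The theorem follows by factoring (a finite rank part of) `h` as `F(z) F(w)^*`.
-/

open scoped ComplexOrder InnerProductSpace ComplexConjugate
open Matrix

universe u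

namespace Pool.Agent.Results.MP_1a2443_an.SchurStable

/-! ## Definitions -/

/-- A *kernel* on `X`: a function `k : X × X → ℂ` all of whose matrices `[k(z_i, z_j)]` are
positive semidefinite and which does not vanish on the diagonal. -/
def IsKernel {X : Type u} (k : X → X → ℂ) : Prop :=
  (∀ (n : ℕ) (z : Fin n → X), (Matrix.of fun i j => k (z i) (z j)).PosSemidef) ∧
    ∀ z, k z z ≠ 0

/-- The block matrix `[ℓ(z_i, z_j) I_N - k(z_i, z_j) W_i W_j^*]`, as a matrix indexed by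
`Fin n × Fin N`. -/
noncomputable def pickMatrix {X : Type u} (k l : X → X → ℂ) {n N : ℕ} (z : Fin n → X)
    (W : Fin n → Matrix (Fin N) (Fin N) ℂ) : Matrix (Fin n × Fin N) (Fin n × Fin N) ℂ :=
  Matrix.of fun p q =>
    (l (z p.1) (z q.1) • (1 : Matrix (Fin N) (Fin N) ℂ)
      - k (z p.1) (z q.1) • (W p.1 * (W q.1)ᴴ)) p.2 q.2

/-- `Φ : X → M_N(ℂ)` is a *contractive multiplier* from `H_k ⊗ ℂ^N` to `H_ℓ ⊗ ℂ^N`:
`ℓ(z, w) I_N - k(z, w) Φ(z) Φ(w)^*` is a positive `M_N`-valued kernel on `X`. -/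
def IsContractiveMultiplier {X : Type u} (k l : X → X → ℂ) {N : ℕ}
    (Φ : X → Matrix (Fin N) (Fin N) ℂ) : Prop :=
  ∀ (n : ℕ) (z : Fin n → X), (pickMatrix k l z fun i => Φ (z i)).PosSemidef

/-- `(k, ℓ)` is a *complete Pick pair*. -/
def IsCPPair {X : Type u} (k l : X → X → ℂ) : Prop :=
  ∀ (n N : ℕ), 1 ≤ n → 1 ≤ N → ∀ (z : Fin n → X) (W : Fin n → Matrix (Fin N) (Fin N) ℂ),
    (pickMatrix k l z W).PosSemidef →
      ∃ Φ : X → Matrix (Fin N) (Fin N) ℂ, IsContractiveMultiplier k l Φ ∧ ∀ i, Φ (z i) = W i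

/-! ## Feature maps -/

theorem exists_feature {X : Type u} (k : X → X → ℂ)
    (hk : ∀ (n : ℕ) (z : Fin n → X), (Matrix.of fun i j => k (z i) (z j)).PosSemidef) :
    ∃ (H : Type u) (_ : NormedAddCommGroup H) (_ : InnerProductSpace ℂ H) (_ : CompleteSpace H)
      (κ : X → H), ∀ z w, ⟪κ z, κ w⟫_ℂ = k z w := by
  classical
  let K : Matrix X X (ℂ →L[ℂ] ℂ) := Matrix.of fun z w => k z w • (1 : ℂ →L[ℂ] ℂ)
  have hherm : ∀ z w, star (k z w) = k w z := by
    intro z w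
    have := (hk 2 ![z, w]).1
    have h2 := congrFun (congrFun this 1) 0
    simpa [Matrix.conjTranspose_apply] using h2
  have htf := (RKHS.posSemidef_tfae (K := K)).out 0 2
  have hKpos : K.PosSemidef := by
    rw [htf]
    constructor
    · ext z w
      simp only [K, Matrix.conjTranspose_apply, Matrix.of_apply, star_smul]
      rw [hherm]
      simp
    · intro vv
      set s := vv.support with hs
      obtain ⟨e⟩ : Nonempty (s ≃ Fin s.card) := ⟨s.equivFin⟩
      have hP := (hk s.card (fun i => (e.symm i : X))).dotProduct_mulVec_nonneg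
        (fun i => vv (e.symm i))
      have hval : (vv.sum fun x w ↦ vv.sum fun x' w' ↦ ⟪K x' x w, w'⟫_ℂ) = 
         star (fun i => vv (e.symm i)) ⬝ᵥ (Matrix.of fun i j => k (e.symm i : X) (e.symm j)) *ᵥ (fun i => vv (e.symm i))
          := by
        simp only [dotProduct, mulVec, Finsupp.sum, Matrix.of_apply, Pi.star_apply]
        rw [← Finset.sum_coe_sort, ← Equiv.sum_comp e.symm]
        refine Finset.sum_congr rfl fun i _ => ?_
        rw [← Finset.sum_coe_sort, ← Equiv.sum_comp e.symm, Finset.mul_sum]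
        refine Finset.sum_congr rfl fun j _ => ?_
        simp [K, ← hherm (e.symm j : X)]
        ring
      rw [hval]
      exact (Complex.nonneg_iff.mp hP).1
  have : Fact K.PosSemidef := ⟨hKpos⟩
  refine ⟨RKHS.OfKernel K, inferInstance, inferInstance, inferInstance,
    fun z => RKHS.kerFun (RKHS.OfKernel K) z 1, ?_⟩
  intro z w
  rw [← RKHS.kernel_inner, RKHS.OfKernel.kernel_ofKernel]
  simp only [K, Matrix.of_apply]
  simp 
  exact hherm w z

/-! ## A minimax lemma -/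

theorem norm_sq_comb {H : Type*} [NormedAddCommGroup H] [InnerProductSpace ℂ H] (u w : H)
    (s t : ℝ) (hst : s + t = 1) :
    ‖(s : ℝ) • u + (t : ℝ) • w‖ ^ 2 = s * ‖u‖ ^ 2 + t * ‖w‖ ^ 2 - s * t * ‖u - w‖ ^ 2 := by
  have h1 := @norm_add_sq ℂ H _ _ _ (s • u) (t • w)
  have h2 := @norm_sub_sq ℂ H _ _ _ u w
  rw [h1, h2]
  have h3 : RCLike.re ⟪s • u, t • w⟫_ℂ = s * t * RCLike.re ⟪u, w⟫_ℂ := by
    have e1 : s • u = (s : ℂ) • u := by simp
    have e2 : t • w = (t : ℂ) • w := by simp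
    rw [e1, e2, inner_smul_left, inner_smul_right]
    simp
    ring
  rw [h3, norm_smul, norm_smul]
  simp only [mul_pow, Real.norm_eq_abs, sq_abs]
  have ht : t = 1 - s := by linarith
  subst ht
  ring

theorem parrott_ball {C F H₁ H₂ : Type*} [NormedAddCommGroup C] [NormedSpace ℂ C]
    [FiniteDimensional ℂ C] [NormedAddCommGroup F] [NormedSpace ℂ F] [FiniteDimensional ℂ F]
    [NormedAddCommGroup H₁] [InnerProductSpace ℂ H₁] [NormedAddCommGroup H₂]
    [InnerProductSpace ℂ H₂] (A : C →ₗ[ℂ] H₁) (A' : C →ₗ[ℂ] H₂) (J : F →ₗ[ℂ] H₂) (g : H₁)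
    (δ : ℝ) (hδ : 0 < δ) (hJ : ∀ b, δ * ‖b‖ ≤ ‖J b‖)
    (h1 : ∀ c, ‖A' c‖ ≤ ‖A c‖) (h2 : ∀ c, ∃ b, ‖A' c + J b‖ ≤ ‖A c + g‖) (M : ℝ) (hM : 0 ≤ M) :
    ∃ b, ∀ c, ‖c‖ ≤ M → ‖A' c + J b‖ ≤ ‖A c + g‖ := by
  have : ProperSpace C := FiniteDimensional.proper ℂ C
  have : ProperSpace F := FiniteDimensional.proper ℂ F
  set AL := LinearMap.toContinuousLinearMap A with hAL
  set AL' := LinearMap.toContinuousLinearMap A' with hAL'
  set JL := LinearMap.toContinuousLinearMap J with hJL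
  set ρ : ℝ := (‖AL‖ * M + ‖g‖ + ‖AL'‖ * M) / δ with hρ
  have hρ0 : 0 ≤ ρ := by positivity
  let f : F → C → ℝ := fun b c => ‖AL' c + JL b‖ ^ 2 - ‖AL c + g‖ ^ 2
  have hfc1 : ∀ c, Continuous fun b => f b c := by
    intro c; simp only [f]; fun_prop
  have hfc2 : ∀ b, Continuous fun c => f b c := by
    intro b; simp only [f]; fun_prop
  have hsad := Sion.exists_isSaddlePointOn (X := Metric.closedBall (0 : F) ρ)
    (Y := Metric.closedBall (0 : C) M) (f := f)
    ⟨0, by simpa using hρ0⟩ (convex_closedBall _ _) (isCompact_closedBall _ _)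
    (fun c _ => (hfc1 c).lowerSemicontinuous.lowerSemicontinuousOn _)
    (fun c _ => by
      apply ConvexOn.quasiconvexOn
      refine ⟨convex_closedBall _ _, ?_⟩
      intro x _ y _ s t hs ht hst
      simp only [f, smul_eq_mul]
      have e : AL' c + JL (s • x + t • y) = s • (AL' c + JL x) + t • (AL' c + JL y) := by
        have : AL' c = s • AL' c + t • AL' c := by rw [← add_smul, hst, one_smul]
        rw [map_add]
        have e1 : JL (s • x) = s • JL x := by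
          have : s • x = (s : ℂ) • x := by simp
          rw [this, map_smul]; simp
        have e2 : JL (t • y) = t • JL y := by
          have : t • y = (t : ℂ) • y := by simp
          rw [this, map_smul]; simp
        rw [e1, e2]
        conv_lhs => rw [this]
        simp only [smul_add]
        abel
      rw [e, norm_sq_comb _ _ s t hst]
      have : 0 ≤ s * t * ‖AL' c + JL x - (AL' c + JL y)‖ ^ 2 := by positivity
      have h3 : ‖AL c + g‖ ^ 2 = s * ‖AL c + g‖ ^ 2 + t * ‖AL c + g‖ ^ 2 := by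
        rw [← add_mul, hst, one_mul]
      nlinarith)
    (convex_closedBall _ _) ⟨0, by simpa using hM⟩ (isCompact_closedBall _ _)
    (fun b _ => (hfc2 b).upperSemicontinuous.upperSemicontinuousOn _)
    (fun b _ => by
      apply ConcaveOn.quasiconcaveOn
      refine ⟨convex_closedBall _ _, ?_⟩
      intro x _ y _ s t hs ht hst
      simp only [f, smul_eq_mul]
      have real_smul : ∀ (L : C →L[ℂ] H₁) (r : ℝ) (x : C), L (r • x) = r • L x := by
        intro L r x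
        have : r • x = (r : ℂ) • x := by simp
        rw [this, map_smul]; simp
      have real_smul' : ∀ (L : C →L[ℂ] H₂) (r : ℝ) (x : C), L (r • x) = r • L x := by
        intro L r x
        have : r • x = (r : ℂ) • x := by simp
        rw [this, map_smul]; simp
      have e : AL' (s • x + t • y) + JL b = s • (AL' x + JL b) + t • (AL' y + JL b) := by
        have : JL b = s • JL b + t • JL b := by rw [← add_smul, hst, one_smul]
        rw [map_add, real_smul', real_smul']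
        conv_lhs => rw [this]
        simp only [smul_add]
        abel
      have e' : AL (s • x + t • y) + g = s • (AL x + g) + t • (AL y + g) := by
        have : g = s • g + t • g := by rw [← add_smul, hst, one_smul]
        rw [map_add, real_smul, real_smul]
        conv_lhs => rw [this]
        simp only [smul_add]
        abel
      rw [e, e', norm_sq_comb _ _ s t hst, norm_sq_comb _ _ s t hst]
      have h4 : ‖AL' x + JL b - (AL' y + JL b)‖ ^ 2 ≤ ‖AL x + g - (AL y + g)‖ ^ 2 := by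
        have := h1 (x - y)
        have e5 : AL' x + JL b - (AL' y + JL b) = A' (x - y) := by
          simp [hAL', map_sub]
        have e6 : AL x + g - (AL y + g) = A (x - y) := by
          simp [hAL, map_sub]
        rw [e5, e6]
        gcongr
      have : 0 ≤ s * t := by positivity
      nlinarith)
  obtain ⟨a, ha, c₀, hc₀, hsp⟩ := hsad
  refine ⟨a, fun c hc => ?_⟩
  obtain ⟨b₀, hb₀⟩ := h2 c₀
  have hc₀' : ‖c₀‖ ≤ M := by simpa using hc₀
  have hb₀ρ : b₀ ∈ Metric.closedBall (0 : F) ρ := by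
    rw [mem_closedBall_zero_iff, hρ, le_div_iff₀ hδ]
    have e1 : ‖J b₀‖ ≤ ‖A c₀ + g‖ + ‖A' c₀‖ := by
      calc ‖J b₀‖ = ‖(A' c₀ + J b₀) - A' c₀‖ := by simp
        _ ≤ ‖A' c₀ + J b₀‖ + ‖A' c₀‖ := norm_sub_le _ _
        _ ≤ _ := by gcongr
    have e2 : ‖A c₀ + g‖ ≤ ‖AL‖ * M + ‖g‖ := by
      refine (norm_add_le _ _).trans ?_
      gcongr
      exact (AL.le_opNorm c₀).trans (by gcongr)
    have e3 : ‖A' c₀‖ ≤ ‖AL'‖ * M := (AL'.le_opNorm c₀).trans (by gcongr)
    have := hJ b₀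
    linarith
  have h5 := hsp b₀ hb₀ρ c (by simpa using hc)
  have h6 : f b₀ c₀ ≤ 0 := by
    simp only [f]
    have : ‖AL' c₀ + JL b₀‖ ^ 2 ≤ ‖AL c₀ + g‖ ^ 2 := by
      gcongr
      exact hb₀
    linarith
  have h7 : ‖AL' c + JL a‖ ^ 2 ≤ ‖AL c + g‖ ^ 2 := by
    have : f a c ≤ 0 := h5.trans h6
    simp only [f] at this
    linarith
  exact (abs_le_of_sq_le_sq' h7 (norm_nonneg _)).2

theorem parrott_vec {C F H₁ H₂ : Type*} [NormedAddCommGroup C] [NormedSpace ℂ C]
    [FiniteDimensional ℂ C] [NormedAddCommGroup F] [NormedSpace ℂ F] [FiniteDimensional ℂ F]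
    [NormedAddCommGroup H₁] [InnerProductSpace ℂ H₁] [NormedAddCommGroup H₂]
    [InnerProductSpace ℂ H₂] (A : C →ₗ[ℂ] H₁) (A' : C →ₗ[ℂ] H₂) (J : F →ₗ[ℂ] H₂) (g : H₁)
    (δ : ℝ) (hδ : 0 < δ) (hJ : ∀ b, δ * ‖b‖ ≤ ‖J b‖)
    (h1 : ∀ c, ‖A' c‖ ≤ ‖A c‖) (h2 : ∀ c, ∃ b, ‖A' c + J b‖ ≤ ‖A c + g‖) :
    ∃ b, ∀ c, ‖A' c + J b‖ ≤ ‖A c + g‖ := by
  have : ProperSpace F := FiniteDimensional.proper ℂ F
  set JL := LinearMap.toContinuousLinearMap J with hJL
  let t : ℕ → Set F := fun M => {b | ∀ c, ‖c‖ ≤ (M : ℝ) → ‖A' c + J b‖ ≤ ‖A c + g‖}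
  have hne : ∀ M, (t M).Nonempty := fun M =>
    parrott_ball A A' J g δ hδ hJ h1 h2 M (Nat.cast_nonneg M)
  have hcl : ∀ M, IsClosed (t M) := by
    intro M
    have : t M = ⋂ (c : C) (_ : ‖c‖ ≤ (M : ℝ)), {b | ‖A' c + JL b‖ ≤ ‖A c + g‖} := by
      ext b; simp [t, hJL]
    rw [this]
    refine isClosed_iInter fun c => isClosed_iInter fun _ => ?_
    exact isClosed_le (by fun_prop) continuous_const
  have hmono : ∀ M, t (M + 1) ⊆ t M := by
    intro M b hb c hc
    refine hb c (hc.trans ?_)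
    push_cast
    linarith
  have hcomp : IsCompact (t 0) := by
    refine (isCompact_closedBall (0 : F) (‖g‖ / δ)).of_isClosed_subset (hcl 0) ?_
    intro b hb
    have := hb 0 (by simp)
    simp only [map_zero, zero_add] at this
    rw [mem_closedBall_zero_iff, le_div_iff₀ hδ]
    linarith [hJ b]
  obtain ⟨b, hb⟩ := IsCompact.nonempty_iInter_of_sequence_nonempty_isCompact_isClosed t hmono hne
    hcomp hcl
  refine ⟨b, fun c => ?_⟩
  obtain ⟨M, hM⟩ := exists_nat_ge ‖c‖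
  exact (Set.mem_iInter.mp hb M) c hM

/-! ## Tangential interpolation -/

set_option linter.unusedSectionVars false

section

variable {X : Type*} {ν : Type*} [Fintype ν] [DecidableEq ν]
  {H₁ H₂ : Type*} [NormedAddCommGroup H₁] [InnerProductSpace ℂ H₁] [NormedAddCommGroup H₂]
    [InnerProductSpace ℂ H₂]

/-- the elementary tensor `κ z ⊗ b`. -/
noncomputable def tens {H : Type*} [NormedAddCommGroup H] [InnerProductSpace ℂ H]
    (κ : X → H) (z : X) : (ν → ℂ) →ₗ[ℂ] PiLp 2 (fun _ : ν => H) where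
  toFun b := WithLp.toLp 2 (fun a => b a • κ z)
  map_add' b c := by ext a; simp [add_smul]
  map_smul' r b := by ext a; simp [mul_smul]

theorem tens_apply {H : Type*} [NormedAddCommGroup H] [InnerProductSpace ℂ H]
    (κ : X → H) (z : X) (b : ν → ℂ) (a : ν) : tens κ z b a = b a • κ z := rfl

theorem tens_lower {H : Type*} [NormedAddCommGroup H] [InnerProductSpace ℂ H]
    (κ : X → H) (z : X) (b : ν → ℂ) : ‖κ z‖ * ‖b‖ ≤ ‖tens κ z b‖ := by
  rw [mul_comm]
  rcases isEmpty_or_nonempty ν with hν | hν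
  · have : b = 0 := Subsingleton.elim _ _
    simp [this]
  · obtain ⟨a, ha⟩ : ∃ a, ‖b‖ = ‖b a‖ := by
      obtain ⟨a, ha⟩ := Finite.exists_max (fun a => ‖b a‖)
      refine ⟨a, le_antisymm ((pi_norm_le_iff_of_nonneg (norm_nonneg _)).mpr ha) (norm_le_pi_norm b a)⟩
    rw [ha, ← norm_smul, ← tens_apply κ z b a]
    exact PiLp.norm_apply_le _ a

/-- graph span of tangential data -/
noncomputable def graphSpan (κ : X → H₂) (lam : X → H₁) (D : Set (X × (ν → ℂ) × (ν → ℂ))) :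
    Submodule ℂ (PiLp 2 (fun _ : ν => H₁) × PiLp 2 (fun _ : ν => H₂)) :=
  Submodule.span ℂ ((fun p : X × (ν → ℂ) × (ν → ℂ) => (tens lam p.1 p.2.1, tens κ p.1 p.2.2)) '' D)

def IsContr {H₁ H₂ : Type*} [NormedAddCommGroup H₁] [NormedAddCommGroup H₂] [Module ℂ H₁] [Module ℂ H₂] 
    (Γ : Submodule ℂ (H₁ × H₂)) : Prop := ∀ y ∈ Γ, ‖y.2‖ ≤ ‖y.1‖

def FullContr (κ : X → H₂) (lam : X → H₁) (S : Finset X) (G : X → Matrix ν ν ℂ) : Prop :=
  ∀ x : X → (ν → ℂ), ‖∑ z ∈ S, tens κ z (G z *ᵥ x z)‖ ≤ ‖∑ z ∈ S, tens lam z (x z)‖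

theorem mem_graph_of_match (κ : X → H₂) (lam : X → H₁) (S : Finset X) (G : X → Matrix ν ν ℂ)
    (D : Set (X × (ν → ℂ) × (ν → ℂ))) (hD : ∀ p ∈ D, p.1 ∈ S) (hG : ∀ p ∈ D, G p.1 *ᵥ p.2.1 = p.2.2)
    (y) (hy : y ∈ graphSpan κ lam D) :
    ∃ x : X → (ν → ℂ), y.1 = ∑ z ∈ S, tens lam z (x z) ∧ y.2 = ∑ z ∈ S, tens κ z (G z *ᵥ x z) := by
  classical
  induction hy using Submodule.span_induction with
  | mem y hy =>
    obtain ⟨p, hp, rfl⟩ := hy
    refine ⟨fun w => if w = p.1 then p.2.1 else 0, ?_, ?_⟩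
    · rw [Finset.sum_eq_single_of_mem p.1 (hD p hp)]
      · simp
      · intro w _ hw; simp [hw]
    · rw [Finset.sum_eq_single_of_mem p.1 (hD p hp)]
      · simp [hG p hp]
      · intro w _ hw; simp [hw]
  | zero => exact ⟨0, by simp, by simp⟩
  | add a b _ _ ha hb =>
    obtain ⟨x, hx1, hx2⟩ := ha
    obtain ⟨y, hy1, hy2⟩ := hb
    refine ⟨x + y, ?_, ?_⟩
    · simp [hx1, hy1, Finset.sum_add_distrib]
    · simp [hx2, hy2, Finset.sum_add_distrib, Matrix.mulVec_add]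
  | smul r a _ ha =>
    obtain ⟨x, hx1, hx2⟩ := ha
    refine ⟨r • x, ?_, ?_⟩
    · simp [hx1, Finset.smul_sum]
    · simp [hx2, Finset.smul_sum, Matrix.mulVec_smul]

theorem mem_graph_single (κ : X → H₂) (lam : X → H₁) (z : X)
    (D : Set (X × (ν → ℂ) × (ν → ℂ))) (hD : ∀ p ∈ D, p.1 = z)
    (y) (hy : y ∈ graphSpan κ lam D) :
    ∃ v b : ν → ℂ, y.1 = tens lam z v ∧ y.2 = tens κ z b := by
  induction hy using Submodule.span_induction with
  | mem y hy =>
    obtain ⟨p, hp, rfl⟩ := hy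
    exact ⟨p.2.1, p.2.2, by simp [hD p hp], by simp [hD p hp]⟩
  | zero => exact ⟨0, 0, by simp, by simp⟩
  | add a b _ _ ha hb =>
    obtain ⟨x, x', hx1, hx2⟩ := ha
    obtain ⟨y, y', hy1, hy2⟩ := hb
    exact ⟨x + y, x' + y', by simp [hx1, hy1], by simp [hx2, hy2]⟩
  | smul r a _ ha =>
    obtain ⟨x, x', hx1, hx2⟩ := ha
    exact ⟨r • x, r • x', by simp [hx1], by simp [hx2]⟩

theorem one_step (κ : X → H₂) (lam : X → H₁) (hκ : ∀ z, κ z ≠ 0)
    (hCP : ∀ (S : Finset X) (G : X → Matrix ν ν ℂ), FullContr κ lam S G →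
      ∃ Φ : X → Matrix ν ν ℂ, (∀ z ∈ S, Φ z = G z) ∧ ∀ S', FullContr κ lam S' Φ)
    [DecidableEq X] (S : Finset X) (z : X) (hz : z ∈ S)
    (hIH : ∀ D : Set (X × (ν → ℂ) × (ν → ℂ)), D.Finite → (∀ p ∈ D, p.1 ∈ S.erase z) →
      IsContr (graphSpan κ lam D) → ∃ G : X → Matrix ν ν ℂ, (∀ p ∈ D, G p.1 *ᵥ p.2.1 = p.2.2) ∧
        FullContr κ lam (S.erase z) G)
    (D : Set (X × (ν → ℂ) × (ν → ℂ))) (hDfin : D.Finite) (hD : ∀ p ∈ D, p.1 ∈ S)
    (hC : IsContr (graphSpan κ lam D)) (v : ν → ℂ) :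
    ∃ b : ν → ℂ, IsContr (graphSpan κ lam (insert (z, v, b) D)) := by
  have hfin : FiniteDimensional ℂ (graphSpan κ lam D) :=
    FiniteDimensional.span_of_finite ℂ (hDfin.image _)
  -- the part of the data away from `z`
  let D₁ : Set (X × (ν → ℂ) × (ν → ℂ)) := {p ∈ D | p.1 ≠ z}
  let D₂ : Set (X × (ν → ℂ) × (ν → ℂ)) := {p ∈ D | p.1 = z}
  have hD12 : D = D₁ ∪ D₂ := by
    ext p; by_cases h : p.1 = z <;> simp [D₁, D₂, h]
  have hsub1 : graphSpan κ lam D₁ ≤ graphSpan κ lam D :=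
    Submodule.span_mono (Set.image_mono (fun p hp => hp.1))
  obtain ⟨G, hG1, hG2⟩ := hIH D₁ (hDfin.subset (fun p hp => hp.1))
    (fun p hp => Finset.mem_erase.mpr ⟨hp.2, hD p hp.1⟩) (fun y hy => hC y (hsub1 hy))
  obtain ⟨Φ, hΦ1, hΦ2⟩ := hCP (S.erase z) G hG2
  obtain ⟨b, hb⟩ := parrott_vec
    ((LinearMap.fst ℂ (PiLp 2 (fun _ : ν => H₁)) (PiLp 2 (fun _ : ν => H₂))).comp
      (graphSpan κ lam D).subtype)
    ((LinearMap.snd ℂ (PiLp 2 (fun _ : ν => H₁)) (PiLp 2 (fun _ : ν => H₂))).comp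
      (graphSpan κ lam D).subtype) (tens κ z) (tens lam z v) ‖κ z‖ (norm_pos_iff.mpr (hκ z))
    (tens_lower κ z) (fun c => hC c c.2) (by
      rintro ⟨c, hc⟩
      simp only [LinearMap.coe_comp, Submodule.coe_subtype, Function.comp_apply,
        LinearMap.snd_apply, LinearMap.fst_apply]
      have hc' : c ∈ graphSpan κ lam D₁ ⊔ graphSpan κ lam D₂ := by
        rw [graphSpan, graphSpan, ← Submodule.span_union, ← Set.image_union, ← hD12]
        exact hc
      obtain ⟨y₁, hy₁, y₂, hy₂, rfl⟩ := Submodule.mem_sup.mp hc'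
      obtain ⟨x, hx1, hx2⟩ := mem_graph_of_match κ lam (S.erase z) G D₁
        (fun p hp => Finset.mem_erase.mpr ⟨hp.2, hD p hp.1⟩) hG1 y₁ hy₁
      obtain ⟨v', b', hv', hb'⟩ := mem_graph_single κ lam z D₂ (fun p hp => hp.2) y₂ hy₂
      refine ⟨Φ z *ᵥ (v' + v) - b', ?_⟩
      have key := hΦ2 S (fun w => if w = z then v' + v else x w)
      rw [← Finset.add_sum_erase S _ hz, ← Finset.add_sum_erase S _ hz] at key
      simp only [if_true] at key
      have e1 : ∑ w ∈ S.erase z, tens κ w (Φ w *ᵥ (if w = z then v' + v else x w)) = y₁.2 := by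
        rw [hx2]
        refine Finset.sum_congr rfl fun w hw => ?_
        rw [if_neg (Finset.ne_of_mem_erase hw), hΦ1 w hw]
      have e2 : ∑ w ∈ S.erase z, tens lam w (if w = z then v' + v else x w) = y₁.1 := by
        rw [hx1]
        refine Finset.sum_congr rfl fun w hw => ?_
        rw [if_neg (Finset.ne_of_mem_erase hw)]
      rw [e1, e2] at key
      have e3 : (y₁ + y₂).2 + tens κ z (Φ z *ᵥ (v' + v) - b') =
          tens κ z (Φ z *ᵥ (v' + v)) + y₁.2 := by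
        rw [Prod.snd_add, hb', map_sub]; abel
      have e4 : (y₁ + y₂).1 + tens lam z v = tens lam z (v' + v) + y₁.1 := by
        rw [Prod.fst_add, hv', map_add]; abel
      rw [e3, e4]
      exact key)
  refine ⟨b, ?_⟩
  intro y hy
  rw [graphSpan, Set.image_insert_eq, Submodule.mem_span_insert] at hy
  obtain ⟨a, y', hy', rfl⟩ := hy
  by_cases ha : a = 0
  · subst ha
    simpa using hC y' hy'
  · have h1 := hb ⟨a⁻¹ • y', (graphSpan κ lam D).smul_mem _ hy'⟩
    simp only [LinearMap.coe_comp, Submodule.coe_subtype, Function.comp_apply,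
        LinearMap.snd_apply, LinearMap.fst_apply] at h1
    have e1 : (a • (tens lam z v, tens κ z b) + y').2 = a • (a⁻¹ • y'.2 + tens κ z b) := by
      simp [smul_smul, ha, add_comm]
    have e2 : (a • (tens lam z v, tens κ z b) + y').1 = a • (a⁻¹ • y'.1 + tens lam z v) := by
      simp [smul_smul, ha, add_comm]
    simp only [e1, e2, norm_smul]
    gcongr
    exact h1

theorem iter_step (κ : X → H₂) (lam : X → H₁) (hκ : ∀ z, κ z ≠ 0)
    (hCP : ∀ (S : Finset X) (G : X → Matrix ν ν ℂ), FullContr κ lam S G →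
      ∃ Φ : X → Matrix ν ν ℂ, (∀ z ∈ S, Φ z = G z) ∧ ∀ S', FullContr κ lam S' Φ)
    [DecidableEq X] (S : Finset X)
    (hIH : ∀ z ∈ S, ∀ D : Set (X × (ν → ℂ) × (ν → ℂ)), D.Finite → (∀ p ∈ D, p.1 ∈ S.erase z) →
      IsContr (graphSpan κ lam D) → ∃ G : X → Matrix ν ν ℂ, (∀ p ∈ D, G p.1 *ᵥ p.2.1 = p.2.2) ∧
        FullContr κ lam (S.erase z) G)
    (D : Set (X × (ν → ℂ) × (ν → ℂ))) (hDfin : D.Finite) (hD : ∀ p ∈ D, p.1 ∈ S)
    (hC : IsContr (graphSpan κ lam D)) (R : Finset (X × ν)) (hR : ∀ r ∈ R, r.1 ∈ S) :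
    ∃ D' : Set (X × (ν → ℂ) × (ν → ℂ)), D ⊆ D' ∧ D'.Finite ∧ (∀ p ∈ D', p.1 ∈ S) ∧
      IsContr (graphSpan κ lam D') ∧ ∀ r ∈ R, ∃ b, (r.1, Pi.single r.2 1, b) ∈ D' := by
  classical
  induction R using Finset.induction_on with
  | empty => exact ⟨D, subset_rfl, hDfin, hD, hC, by simp⟩
  | insert r R _ ih =>
    obtain ⟨D', h1, h2, h3, h4, h5⟩ := ih (fun r hr => hR r (Finset.mem_insert_of_mem hr))
    have hrS : r.1 ∈ S := hR r (Finset.mem_insert_self _ _)
    obtain ⟨b, hb⟩ := one_step κ lam hκ hCP S r.1 hrS (hIH r.1 hrS) D' h2 h3 h4 (Pi.single r.2 1)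
    refine ⟨insert (r.1, Pi.single r.2 1, b) D', h1.trans (Set.subset_insert _ _), h2.insert _,
      ?_, hb, ?_⟩
    · intro p hp
      rcases hp with rfl | hp
      · exact hrS
      · exact h3 p hp
    · intro r' hr'
      rcases Finset.mem_insert.mp hr' with rfl | hr'
      · exact ⟨b, Set.mem_insert _ _⟩
      · obtain ⟨b', hb'⟩ := h5 r' hr'
        exact ⟨b', Set.mem_insert_of_mem _ hb'⟩

theorem tangential (κ : X → H₂) (lam : X → H₁) (hκ : ∀ z, κ z ≠ 0)
    (hCP : ∀ (S : Finset X) (G : X → Matrix ν ν ℂ), FullContr κ lam S G →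
      ∃ Φ : X → Matrix ν ν ℂ, (∀ z ∈ S, Φ z = G z) ∧ ∀ S', FullContr κ lam S' Φ)
    (S : Finset X) :
    ∀ (D : Set (X × (ν → ℂ) × (ν → ℂ))), D.Finite → (∀ p ∈ D, p.1 ∈ S) →
    IsContr (graphSpan κ lam D) →
    ∃ G : X → Matrix ν ν ℂ, (∀ p ∈ D, G p.1 *ᵥ p.2.1 = p.2.2) ∧ FullContr κ lam S G := by
  classical
  induction S using Finset.strongInduction with
  | H S ih =>
  intro D hDfin hD hC
  obtain ⟨D', h1, h2, h3, h4, h5⟩ := iter_step κ lam hκ hCP S
    (fun z hz => ih (S.erase z) (Finset.erase_ssubset hz)) D hDfin hD hC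
    (S ×ˢ Finset.univ) (fun r hr => (Finset.mem_product.mp hr).1)
  have h6 : ∀ z ∈ S, ∀ a : ν, ∃ b, (z, Pi.single a 1, b) ∈ D' := fun z hz a =>
    h5 (z, a) (Finset.mem_product.mpr ⟨hz, Finset.mem_univ _⟩)
  choose! B hB using h6
  let G : X → Matrix ν ν ℂ := fun z => Matrix.of fun i a => B z a i
  have hGv : ∀ z x, G z *ᵥ x = ∑ a, x a • B z a := by
    intro z x
    ext i
    simp [G, Matrix.mulVec, dotProduct, mul_comm]
  have hmem : ∀ z ∈ S, ∀ x : ν → ℂ, ((tens lam z x, tens κ z (G z *ᵥ x)) :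
      PiLp 2 (fun _ : ν => H₁) × PiLp 2 (fun _ : ν => H₂)) ∈ graphSpan κ lam D' := by
    intro z hz x
    have : ((tens lam z x, tens κ z (G z *ᵥ x)) :
      PiLp 2 (fun _ : ν => H₁) × PiLp 2 (fun _ : ν => H₂)) =
        ∑ a, x a • (tens lam z (Pi.single a 1), tens κ z (B z a)) := by
      rw [hGv]
      ext1
      · simp only [Prod.fst_sum, Prod.smul_fst, ← map_smul, ← map_sum]
        congr 1
        ext i
        simp [Pi.single_apply]
      · simp only [Prod.snd_sum, Prod.smul_snd, ← map_smul, ← map_sum]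
    rw [this]
    refine Submodule.sum_mem _ fun a _ => Submodule.smul_mem _ _ (Submodule.subset_span ?_)
    exact ⟨_, hB z hz a, rfl⟩
  refine ⟨G, ?_, ?_⟩
  · intro p hp
    have m1 := hmem p.1 (hD p hp) p.2.1
    have m2 : ((tens lam p.1 p.2.1, tens κ p.1 p.2.2) :
      PiLp 2 (fun _ : ν => H₁) × PiLp 2 (fun _ : ν => H₂)) ∈ graphSpan κ lam D' :=
      Submodule.subset_span ⟨p, h1 hp, rfl⟩
    have m3 := h4 _ (Submodule.sub_mem _ m1 m2)
    simp only [Prod.fst_sub, Prod.snd_sub, sub_self, norm_zero, ← map_sub] at m3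
    have m4 := tens_lower κ p.1 (G p.1 *ᵥ p.2.1 - p.2.2)
    have m5 : ‖κ p.1‖ * ‖G p.1 *ᵥ p.2.1 - p.2.2‖ ≤ 0 := m4.trans m3
    have m6 : 0 < ‖κ p.1‖ := norm_pos_iff.mpr (hκ _)
    have m7 : ‖G p.1 *ᵥ p.2.1 - p.2.2‖ ≤ 0 := by
      by_contra hcon
      push Not at hcon
      have := mul_pos m6 hcon
      linarith
    exact sub_eq_zero.mp (norm_le_zero_iff.mp m7)
  · intro x
    have m1 : (∑ z ∈ S, ((tens lam z (x z), tens κ z (G z *ᵥ x z)) :
      PiLp 2 (fun _ : ν => H₁) × PiLp 2 (fun _ : ν => H₂))) ∈ graphSpan κ lam D' :=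
      Submodule.sum_mem _ fun z hz => hmem z hz (x z)
    have m2 := h4 _ m1
    simpa [Prod.fst_sum, Prod.snd_sum] using m2


/-! ## Quadratic forms -/

theorem inner_tens {H : Type*} [NormedAddCommGroup H] [InnerProductSpace ℂ H]
    (κ : X → H) (z w : X) (b c : ν → ℂ) :
    ⟪tens κ z b, tens κ w c⟫_ℂ = ⟪κ z, κ w⟫_ℂ * (star b ⬝ᵥ c) := by
  rw [PiLp.inner_apply]
  simp only [tens_apply, inner_smul_left, inner_smul_right, dotProduct, Finset.mul_sum,
    Pi.star_apply, RCLike.star_def]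
  refine Finset.sum_congr rfl fun a _ => ?_
  ring

theorem norm_sq_sum_tens {H : Type*} [NormedAddCommGroup H] [InnerProductSpace ℂ H]
    {ι : Type*} [Fintype ι] (κ : X → H) (z : ι → X) (b : ι → ν → ℂ) :
    ((‖∑ i, tens κ (z i) (b i)‖ ^ 2 : ℝ) : ℂ) =
      ∑ i, ∑ j, ⟪κ (z i), κ (z j)⟫_ℂ * (star (b i) ⬝ᵥ b j) := by
  have := @inner_self_eq_norm_sq_to_K ℂ _ _ _ _ (∑ i, tens κ (z i) (b i))
  rw [sum_inner] at this
  simp only [inner_sum, inner_tens] at this
  rw [this]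
  simp

theorem star_mulVec_dot (A B : Matrix ν ν ℂ) (x y : ν → ℂ) :
    star (Aᴴ *ᵥ x) ⬝ᵥ (Bᴴ *ᵥ y) = star x ⬝ᵥ ((A * Bᴴ) *ᵥ y) := by
  rw [star_mulVec, conjTranspose_conjTranspose, ← dotProduct_mulVec, mulVec_mulVec]

theorem quad_pick {n : ℕ} {N : ℕ} (z : Fin n → X) (W : Fin n → Matrix (Fin N) (Fin N) ℂ)
    (k l : X → X → ℂ) (y : Fin n × Fin N → ℂ) :
    star y ⬝ᵥ (Matrix.of (fun p q : Fin n × Fin N => (l (z p.1) (z q.1) • (1 : Matrix (Fin N) (Fin N) ℂ)
      - k (z p.1) (z q.1) • (W p.1 * (W q.1)ᴴ)) p.2 q.2)) *ᵥ y =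
    ∑ i, ∑ j, (l (z i) (z j) * (star (fun a => y (i, a)) ⬝ᵥ fun a => y (j, a)) -
      k (z i) (z j) * (star ((W i)ᴴ *ᵥ fun a => y (i, a)) ⬝ᵥ ((W j)ᴴ *ᵥ fun a => y (j, a)))) := by
  simp only [star_mulVec_dot]
  simp only [dotProduct, mulVec, Matrix.of_apply, Fintype.sum_prod_type, Pi.star_apply]
  simp only [Finset.mul_sum]
  refine Finset.sum_congr rfl fun i _ => ?_
  rw [Finset.sum_comm]
  refine Finset.sum_congr rfl fun j _ => ?_
  rw [← Finset.sum_sub_distrib]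
  refine Finset.sum_congr rfl fun a _ => ?_
  simp only [Matrix.sub_apply, Matrix.smul_apply, smul_eq_mul, sub_mul, mul_sub, Finset.sum_sub_distrib]
  congr 1
  · rw [Finset.sum_eq_single a]
    · simp; ring
    · intro b _ hb
      simp [Matrix.one_apply_ne hb.symm]
    · simp
  · refine Finset.sum_congr rfl fun b _ => ?_
    ring


end

/-! ## Passing between the two formulations -/

section

variable {X : Type u} {H₁ H₂ : Type u} [NormedAddCommGroup H₁] [InnerProductSpace ℂ H₁]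
  [NormedAddCommGroup H₂] [InnerProductSpace ℂ H₂]

theorem pick_herm {k l : X → X → ℂ} (hk : ∀ z w, star (k z w) = k w z)
    (hl : ∀ z w, star (l z w) = l w z) {n N : ℕ} (z : Fin n → X)
    (W : Fin n → Matrix (Fin N) (Fin N) ℂ) : (pickMatrix k l z W).IsHermitian := by
  ext p q
  have h1 : star ((W q.1 * (W p.1)ᴴ) q.2 p.2) = (W p.1 * (W q.1)ᴴ) p.2 q.2 := by
    have : (W q.1 * (W p.1)ᴴ)ᴴ = W p.1 * (W q.1)ᴴ := by
      rw [conjTranspose_mul, conjTranspose_conjTranspose]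
    rw [← this, conjTranspose_apply]
  have h2 : star ((1 : Matrix (Fin N) (Fin N) ℂ) q.2 p.2) =
      (1 : Matrix (Fin N) (Fin N) ℂ) p.2 q.2 := by
    rw [← conjTranspose_apply, conjTranspose_one]
  simp only [pickMatrix, conjTranspose_apply, Matrix.of_apply, Matrix.sub_apply,
    Matrix.smul_apply, smul_eq_mul, star_sub, star_mul', hk, hl, h1, h2]

theorem quad_pickMatrix {n N : ℕ} (z : Fin n → X) (W : Fin n → Matrix (Fin N) (Fin N) ℂ)
    (k l : X → X → ℂ) (y : Fin n × Fin N → ℂ) :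
    star y ⬝ᵥ (pickMatrix k l z W) *ᵥ y =
    ∑ i, ∑ j, (l (z i) (z j) * (star (fun a => y (i, a)) ⬝ᵥ fun a => y (j, a)) -
      k (z i) (z j) * (star ((W i)ᴴ *ᵥ fun a => y (i, a)) ⬝ᵥ ((W j)ᴴ *ᵥ fun a => y (j, a)))) :=
  quad_pick z W k l y

theorem psd_iff_contr (κ : X → H₂) (lam : X → H₁) {k l : X → X → ℂ}
    (hκ : ∀ z w, ⟪κ z, κ w⟫_ℂ = k z w) (hl : ∀ z w, ⟪lam z, lam w⟫_ℂ = l z w)
    {n N : ℕ} (z : Fin n → X) (W : Fin n → Matrix (Fin N) (Fin N) ℂ) :
    (pickMatrix k l z W).PosSemidef ↔ ∀ x : Fin n → Fin N → ℂ,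
      ‖∑ i, tens κ (z i) ((W i)ᴴ *ᵥ x i)‖ ≤ ‖∑ i, tens lam (z i) (x i)‖ := by
  have key : ∀ x : Fin n → Fin N → ℂ,
      star (fun p : Fin n × Fin N => x p.1 p.2) ⬝ᵥ (pickMatrix k l z W) *ᵥ
        (fun p : Fin n × Fin N => x p.1 p.2) =
      ((‖∑ i, tens lam (z i) (x i)‖ ^ 2 - ‖∑ i, tens κ (z i) ((W i)ᴴ *ᵥ x i)‖ ^ 2 : ℝ) : ℂ) := by
    intro x
    rw [quad_pickMatrix, Complex.ofReal_sub, norm_sq_sum_tens, norm_sq_sum_tens,
      ← Finset.sum_sub_distrib]
    refine Finset.sum_congr rfl fun i _ => ?_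
    rw [← Finset.sum_sub_distrib]
    refine Finset.sum_congr rfl fun j _ => ?_
    rw [hκ, hl]
  constructor
  · intro hP x
    have := hP.dotProduct_mulVec_nonneg (fun p : Fin n × Fin N => x p.1 p.2)
    rw [key, Complex.zero_le_real] at this
    exact (abs_le_of_sq_le_sq' (by linarith) (norm_nonneg _)).2
  · intro hx
    refine Matrix.PosSemidef.of_dotProduct_mulVec_nonneg (pick_herm ?_ ?_ z W) ?_
    · intro z w
      rw [← hκ, ← hκ, RCLike.star_def, inner_conj_symm]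
    · intro z w
      rw [← hl, ← hl, RCLike.star_def, inner_conj_symm]
    · intro y
      have e := key (fun i a => y (i, a))
      change star y ⬝ᵥ (pickMatrix k l z W) *ᵥ y = _ at e
      rw [e, Complex.zero_le_real]
      have := hx (fun i a => y (i, a))
      have : ‖∑ i, tens κ (z i) ((W i)ᴴ *ᵥ (fun a => y (i, a)))‖ ^ 2 ≤
          ‖∑ i, tens lam (z i) (fun a => y (i, a))‖ ^ 2 := by gcongr
      linarith

theorem fam_of_full {ν : Type*} [Fintype ν] [DecidableEq ν] (κ : X → H₂) (lam : X → H₁)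
    (G : X → Matrix ν ν ℂ) (h : ∀ S', FullContr κ lam S' G) {ι : Type*} [Fintype ι]
    (z : ι → X) (x : ι → ν → ℂ) :
    ‖∑ i, tens κ (z i) (G (z i) *ᵥ x i)‖ ≤ ‖∑ i, tens lam (z i) (x i)‖ := by
  classical
  have := h (Finset.univ.image z) (fun w => ∑ i with z i = w, x i)
  have e1 : ∑ w ∈ Finset.univ.image z, tens κ w (G w *ᵥ (∑ i with z i = w, x i)) =
      ∑ i, tens κ (z i) (G (z i) *ᵥ x i) := by
    rw [← Finset.sum_fiberwise_of_maps_to (s := Finset.univ) (t := Finset.univ.image z) (g := z)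
      (fun i hi => Finset.mem_image_of_mem z hi)]
    refine Finset.sum_congr rfl fun w _ => ?_
    rw [Matrix.mulVec_sum, map_sum]
    refine Finset.sum_congr rfl fun i hi => ?_
    rw [(Finset.mem_filter.mp hi).2]
  have e2 : ∑ w ∈ Finset.univ.image z, tens lam w (∑ i with z i = w, x i) =
      ∑ i, tens lam (z i) (x i) := by
    rw [← Finset.sum_fiberwise_of_maps_to (s := Finset.univ) (t := Finset.univ.image z) (g := z)
      (fun i hi => Finset.mem_image_of_mem z hi)]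
    refine Finset.sum_congr rfl fun w _ => ?_
    rw [map_sum]
    refine Finset.sum_congr rfl fun i hi => ?_
    rw [(Finset.mem_filter.mp hi).2]
  rw [e1, e2] at this
  exact this

theorem cp_full (κ : X → H₂) (lam : X → H₁) {k l : X → X → ℂ}
    (hκ : ∀ z w, ⟪κ z, κ w⟫_ℂ = k z w) (hl : ∀ z w, ⟪lam z, lam w⟫_ℂ = l z w)
    (hCP : IsCPPair k l) {N : ℕ} (hN : 1 ≤ N) (S : Finset X)
    (G : X → Matrix (Fin N) (Fin N) ℂ) (hG : FullContr κ lam S G) :
    ∃ Φ : X → Matrix (Fin N) (Fin N) ℂ, (∀ z ∈ S, Φ z = G z) ∧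
      ∀ S', FullContr κ lam S' Φ := by
  classical
  rcases S.eq_empty_or_nonempty with rfl | hS
  · refine ⟨fun _ => 0, by simp, fun S' x => by simp⟩
  · have hn : 1 ≤ S.card := Finset.card_pos.mpr hS
    let e := S.equivFin
    let z : Fin S.card → X := fun i => (e.symm i : X)
    have hsum : ∀ {M : Type u} [AddCommMonoid M] (f : X → M), ∑ i, f (z i) = ∑ w ∈ S, f w := by
      intro M _ f
      rw [← Finset.sum_coe_sort S f, ← Equiv.sum_comp e.symm]
    obtain ⟨Φ, hΦ1, hΦ2⟩ := hCP S.card N hn hN z (fun i => (G (z i))ᴴ) (by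
      rw [psd_iff_contr κ lam hκ hl]
      intro x
      have := hG (fun w => if h : w ∈ S then x (e ⟨w, h⟩) else 0)
      have e1 : ∑ w ∈ S, tens κ w (G w *ᵥ (if h : w ∈ S then x (e ⟨w, h⟩) else 0)) =
          ∑ i, tens κ (z i) (((G (z i))ᴴ)ᴴ *ᵥ x i) := by
        rw [← hsum]
        refine Finset.sum_congr rfl fun i _ => ?_
        have : (z i) ∈ S := (e.symm i).2
        rw [dif_pos this, conjTranspose_conjTranspose]
        congr 3
        simp [z]
      have e2 : ∑ w ∈ S, tens lam w (if h : w ∈ S then x (e ⟨w, h⟩) else 0) =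
          ∑ i, tens lam (z i) (x i) := by
        rw [← hsum]
        refine Finset.sum_congr rfl fun i _ => ?_
        have : (z i) ∈ S := (e.symm i).2
        rw [dif_pos this]
        congr 2
        simp [z]
      rw [e1, e2] at this
      exact this)
    refine ⟨fun w => (Φ w)ᴴ, ?_, ?_⟩
    · intro w hw
      have := hΦ2 (e ⟨w, hw⟩)
      simp only [z, Equiv.symm_apply_apply] at this
      simp only [this, conjTranspose_conjTranspose]
    · intro S' x
      let e' := S'.equivFin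
      let z' : Fin S'.card → X := fun i => (e'.symm i : X)
      have h3 := (psd_iff_contr κ lam hκ hl z' (fun i => Φ (z' i))).mp (hΦ1 _ z')
        (fun i => x (z' i))
      have hsum' : ∀ {M : Type u} [AddCommMonoid M] (f : X → M),
          ∑ i, f (z' i) = ∑ w ∈ S', f w := by
        intro M _ f
        rw [← Finset.sum_coe_sort S' f, ← Equiv.sum_comp e'.symm]
      rw [← hsum' (fun w => tens κ w ((Φ w)ᴴ *ᵥ x w)), ← hsum' (fun w => tens lam w (x w))]
      exact h3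

end

/-! ## The theorem -/

section

variable {X : Type u}

/-- the finite rank part of `h` used for the factorization -/
noncomputable def fvec {H : Type u} [NormedAddCommGroup H] [InnerProductSpace ℂ H]
    (η : X → H) {m : ℕ} (ε : Fin m → H) (z : X) (a : Fin (m + 1)) : ℂ :=
  if h : a.val < m then ⟪η z, ε ⟨a.val, h⟩⟫_ℂ else 0

noncomputable def Fmat {H : Type u} [NormedAddCommGroup H] [InnerProductSpace ℂ H]
    (η : X → H) {m : ℕ} (ε : Fin m → H) (N : ℕ) (z : X) :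
    Matrix (Fin N) (Fin ((m + 1) * N)) ℂ :=
  Matrix.of fun r q => if (finProdFinEquiv.symm q).2 = r then
    fvec η ε z (finProdFinEquiv.symm q).1 else 0

noncomputable def Jmat (m N : ℕ) : Matrix (Fin ((m + 1) * N)) (Fin N) ℂ :=
  Matrix.of fun q r => if finProdFinEquiv.symm q = (Fin.last m, r) then 1 else 0

theorem Fmat_conj_mulVec {H : Type u} [NormedAddCommGroup H] [InnerProductSpace ℂ H]
    (η : X → H) {m : ℕ} (ε : Fin m → H) (N : ℕ) (z : X) (x : Fin N → ℂ)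
    (p : Fin (m + 1) × Fin N) :
    ((Fmat η ε N z)ᴴ *ᵥ x) (finProdFinEquiv p) = star (fvec η ε z p.1) * x p.2 := by
  simp only [mulVec, dotProduct, conjTranspose_apply, Fmat, Matrix.of_apply,
    Equiv.symm_apply_apply]
  rw [Finset.sum_eq_single p.2]
  · simp
  · intro b _ hb
    rw [if_neg hb.symm]; simp
  · simp

theorem Fmat_inner {H : Type u} [NormedAddCommGroup H] [InnerProductSpace ℂ H]
    (η : X → H) {m : ℕ} (ε : Fin m → H) (N : ℕ) (z w : X) (x y : Fin N → ℂ) :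
    star ((Fmat η ε N z)ᴴ *ᵥ x) ⬝ᵥ ((Fmat η ε N w)ᴴ *ᵥ y) =
      (∑ a : Fin m, ⟪η z, ε a⟫_ℂ * ⟪ε a, η w⟫_ℂ) * (star x ⬝ᵥ y) := by
  rw [dotProduct, ← Equiv.sum_comp finProdFinEquiv]
  simp only [Pi.star_apply, Fmat_conj_mulVec, Fintype.sum_prod_type]
  rw [Fin.sum_univ_castSucc]
  simp only [dotProduct, Finset.sum_mul, Finset.mul_sum, fvec]
  simp
  rw [Finset.sum_comm]
  refine Finset.sum_congr rfl fun a _ => Finset.sum_congr rfl fun r _ => ?_
  ring

theorem Jmat_mulVec (m N : ℕ) (x : Fin N → ℂ) (p : Fin (m + 1) × Fin N) :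
    (Jmat m N *ᵥ x) (finProdFinEquiv p) = if p.1 = Fin.last m then x p.2 else 0 := by
  simp only [mulVec, dotProduct, Jmat, Matrix.of_apply, Equiv.symm_apply_apply]
  by_cases h : p.1 = Fin.last m
  · rw [if_pos h, Finset.sum_eq_single p.2]
    · rw [if_pos (by rw [← h])]; simp
    · intro b _ hb
      rw [if_neg]
      · simp
      · intro h'
        exact hb (by rw [h'])
    · simp
  · rw [if_neg h]
    refine Finset.sum_eq_zero fun b _ => ?_
    rw [if_neg]
    · simp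
    · intro h'
      exact h (by rw [h'])

theorem Jmat_inner (m N : ℕ) (x y : Fin N → ℂ) :
    star (Jmat m N *ᵥ x) ⬝ᵥ (Jmat m N *ᵥ y) = star x ⬝ᵥ y := by
  rw [dotProduct, ← Equiv.sum_comp finProdFinEquiv]
  simp only [Pi.star_apply, Jmat_mulVec, Fintype.sum_prod_type, dotProduct]
  rw [Finset.sum_eq_single (Fin.last m)]
  · simp
  · intro b _ hb
    simp [hb]
  · simp

theorem Jmat_conj_mulVec (m N : ℕ) (y : Fin ((m + 1) * N) → ℂ) (r : Fin N) :
    ((Jmat m N)ᴴ *ᵥ y) r = y (finProdFinEquiv (Fin.last m, r)) := by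
  simp only [mulVec, dotProduct, Jmat, Matrix.of_apply, conjTranspose_apply]
  rw [Finset.sum_eq_single (finProdFinEquiv (Fin.last m, r))]
  · simp
  · intro b _ hb
    rw [if_neg]
    · simp
    · intro h
      exact hb (by rw [← h, Equiv.apply_symm_apply])
  · simp

theorem Jmat_conj_Jmat (m N : ℕ) (x : Fin N → ℂ) : (Jmat m N)ᴴ *ᵥ (Jmat m N *ᵥ x) = x := by
  ext r
  rw [Jmat_conj_mulVec, Jmat_mulVec]
  simp

theorem norm_sum_tens_Jmat_le {H : Type u} [NormedAddCommGroup H] [InnerProductSpace ℂ H]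
    (κ : X → H) (m N : ℕ) {ι : Type*} [Fintype ι] (z : ι → X)
    (y : ι → Fin ((m + 1) * N) → ℂ) :
    ‖∑ i, tens κ (z i) ((Jmat m N)ᴴ *ᵥ y i)‖ ≤ ‖∑ i, tens κ (z i) (y i)‖ := by
  have h1 : ∀ r, (∑ i, tens κ (z i) ((Jmat m N)ᴴ *ᵥ y i)) r =
      (∑ i, tens κ (z i) (y i)) (finProdFinEquiv (Fin.last m, r)) := by
    intro r
    simp only [WithLp.ofLp_sum, Finset.sum_apply, tens_apply, Jmat_conj_mulVec]
  have h2 : ‖∑ i, tens κ (z i) ((Jmat m N)ᴴ *ᵥ y i)‖ ^ 2 ≤ ‖∑ i, tens κ (z i) (y i)‖ ^ 2 := by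
    rw [PiLp.norm_sq_eq_of_L2, PiLp.norm_sq_eq_of_L2]
    simp only [h1]
    rw [← Equiv.sum_comp finProdFinEquiv, Fintype.sum_prod_type]
    exact Finset.single_le_sum (f := fun a : Fin (m + 1) =>
      ∑ r, ‖(∑ i, tens κ (z i) (y i)) (finProdFinEquiv (a, r))‖ ^ 2)
      (fun a _ => Finset.sum_nonneg fun r _ => by positivity) (Finset.mem_univ (Fin.last m))
  exact (abs_le_of_sq_le_sq' h2 (norm_nonneg _)).2

end

theorem schur_sum_nonneg {H₁ H₃ : Type u} [NormedAddCommGroup H₁] [InnerProductSpace ℂ H₁]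
    [NormedAddCommGroup H₃] [InnerProductSpace ℂ H₃] {n N : ℕ} (a : Fin n → H₁) (b : Fin n → H₃)
    (x : Fin n → Fin N → ℂ) :
    (0 : ℂ) ≤ ∑ i, ∑ j, ⟪a i, a j⟫_ℂ * ⟪b i, b j⟫_ℂ * (star (x i) ⬝ᵥ x j) := by
  have g1 := Matrix.posSemidef_gram ℂ a
  have g2 := Matrix.posSemidef_gram ℂ b
  have g3 := Matrix.posSemidef_gram ℂ (fun i => (WithLp.toLp 2 (x i) : EuclideanSpace ℂ (Fin N)))
  have g5 := ((g1.hadamard g2).hadamard g3).dotProduct_mulVec_nonneg (fun _ => 1)
  refine le_of_le_of_eq g5 ?_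
  simp only [dotProduct, mulVec, Finset.mul_sum]
  refine Finset.sum_congr rfl fun i _ => Finset.sum_congr rfl fun j _ => ?_
  have h1 : ⟪(WithLp.toLp 2 (x i) : EuclideanSpace ℂ (Fin N)), WithLp.toLp 2 (x j)⟫_ℂ =
      ∑ r, star (x i r) * x j r := by
    rw [EuclideanSpace.inner_eq_star_dotProduct, dotProduct]
    refine Finset.sum_congr rfl fun r _ => ?_
    rw [mul_comm]; rfl
  simp only [hadamard_apply, gram_apply, h1, Pi.star_apply, star_one, one_mul, mul_one,
    Finset.mul_sum]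

/-- **Complete Pick pairs are stable under multiplication of the second kernel**: if `(k, ℓ)` is
a complete Pick pair of kernels on `X` and `h` is any kernel on `X`, then `(k, ℓ h)` is a
complete Pick pair. -/
theorem result {X : Type u} [Nonempty X] (k l h : X → X → ℂ)
    (hk : IsKernel k) (hl : IsKernel l) (hh : IsKernel h) (hkl : IsCPPair k l) :
    IsCPPair k (fun z w => l z w * h z w) := by
  classical
  obtain ⟨H₂, _, _, _, κ, hκ⟩ := exists_feature k hk.1
  obtain ⟨H₁, _, _, _, lam, hlam⟩ := exists_feature l hl.1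
  obtain ⟨H₃, _, _, _, η, hη⟩ := exists_feature h hh.1
  intro n N hn hN z W hP
  have hκ0 : ∀ z, κ z ≠ 0 := fun z h0 => hk.2 z (by rw [← hκ, h0, inner_zero_left])
  have hks : ∀ z w, star (k z w) = k w z := fun z w => by
    rw [← hκ, ← hκ, RCLike.star_def, inner_conj_symm]
  have hls : ∀ z w, star (l z w * h z w) = l w z * h w z := fun z w => by
    rw [star_mul', ← hlam, ← hlam, ← hη, ← hη, RCLike.star_def,
      inner_conj_symm, inner_conj_symm]
  -- the finite dimensional space spanned by the kernel functions of `h` at the nodes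
  let U : Submodule ℂ H₃ := Submodule.span ℂ (Set.range fun i => η (z i))
  have hUfin : FiniteDimensional ℂ U := FiniteDimensional.span_of_finite ℂ (Set.finite_range _)
  let m : ℕ := Module.finrank ℂ U
  let ε' : OrthonormalBasis (Fin m) ℂ U := stdOrthonormalBasis ℂ U
  let ε : Fin m → H₃ := fun a => (ε' a : H₃)
  have hεite : ∀ a b, ⟪ε a, ε b⟫_ℂ = if a = b then 1 else 0 := by
    intro a b
    have := (orthonormal_iff_ite.mp ε'.orthonormal) a b
    simpa [ε] using this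
  let hS : X → X → ℂ := fun z w => ∑ a, ⟪η z, ε a⟫_ℂ * ⟪ε a, η w⟫_ℂ
  have hS1 : ∀ i j, hS (z i) (z j) = h (z i) (z j) := by
    intro i j
    have hi : η (z i) ∈ U := Submodule.subset_span ⟨i, rfl⟩
    have hj : η (z j) ∈ U := Submodule.subset_span ⟨j, rfl⟩
    have := ε'.sum_inner_mul_inner ⟨η (z i), hi⟩ ⟨η (z j), hj⟩
    simp only [Submodule.coe_inner] at this
    rw [← hη]
    exact this
  let ζ : X → H₃ := fun w => η w - ∑ a, ⟪ε a, η w⟫_ℂ • ε a
  have hζ : ∀ z w, ⟪ζ z, ζ w⟫_ℂ = h z w - hS z w := by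
    intro z w
    simp only [ζ, hS, inner_sub_left, inner_sub_right, inner_sum, sum_inner, inner_smul_left,
      inner_smul_right, hεite, hη]
    simp
  -- the tangential data
  let F : X → Matrix (Fin N) (Fin ((m + 1) * N)) ℂ := Fmat η ε N
  let J : Matrix (Fin ((m + 1) * N)) (Fin N) ℂ := Jmat m N
  have hM : 1 ≤ (m + 1) * N := Nat.mul_pos (Nat.succ_pos _) hN
  have hnormF : ∀ {ι : Type} [Fintype ι] (z : ι → X) (x : ι → Fin N → ℂ),
      ((‖∑ i, tens lam (z i) ((F (z i))ᴴ *ᵥ x i)‖ ^ 2 : ℝ) : ℂ) =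
        ∑ i, ∑ j, l (z i) (z j) * hS (z i) (z j) * (star (x i) ⬝ᵥ x j) := by
    intro ι _ z x
    rw [norm_sq_sum_tens]
    refine Finset.sum_congr rfl fun i _ => Finset.sum_congr rfl fun j _ => ?_
    rw [Fmat_inner, hlam, mul_assoc]
  have hnormJ : ∀ {ι : Type} [Fintype ι] (z : ι → X) (x : ι → Fin N → ℂ),
      ((‖∑ i, tens κ (z i) (J *ᵥ x i)‖ ^ 2 : ℝ) : ℂ) =
        ∑ i, ∑ j, k (z i) (z j) * (star (x i) ⬝ᵥ x j) := by
    intro ι _ z x
    rw [norm_sq_sum_tens]
    refine Finset.sum_congr rfl fun i _ => Finset.sum_congr rfl fun j _ => ?_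
    rw [Jmat_inner, hκ]
  let D : Set (X × (Fin ((m + 1) * N) → ℂ) × (Fin ((m + 1) * N) → ℂ)) :=
    Set.range fun p : Fin n × Fin N => (z p.1, (F (z p.1))ᴴ *ᵥ Pi.single p.2 1,
      J *ᵥ ((W p.1)ᴴ *ᵥ Pi.single p.2 1))
  have hDspan : ∀ y ∈ graphSpan κ lam D, ∃ x : Fin n → Fin N → ℂ,
      y.1 = ∑ i, tens lam (z i) ((F (z i))ᴴ *ᵥ x i) ∧
      y.2 = ∑ i, tens κ (z i) (J *ᵥ ((W i)ᴴ *ᵥ x i)) := by
    intro y hy
    induction hy using Submodule.span_induction with
    | mem y hy =>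
      obtain ⟨_, ⟨p, rfl⟩, rfl⟩ := hy
      refine ⟨Pi.single p.1 (Pi.single p.2 1), ?_, ?_⟩
      · rw [Finset.sum_eq_single p.1]
        · simp
        · intro b _ hb
          simp [Pi.single_eq_of_ne hb]
        · simp
      · rw [Finset.sum_eq_single p.1]
        · simp
        · intro b _ hb
          simp [Pi.single_eq_of_ne hb]
        · simp
    | zero => exact ⟨0, by simp, by simp⟩
    | add a b _ _ ha hb =>
      obtain ⟨x, hx1, hx2⟩ := ha
      obtain ⟨y, hy1, hy2⟩ := hb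
      refine ⟨x + y, ?_, ?_⟩
      · simp [hx1, hy1, Finset.sum_add_distrib, Matrix.mulVec_add]
      · simp [hx2, hy2, Finset.sum_add_distrib, Matrix.mulVec_add]
    | smul r a _ ha =>
      obtain ⟨x, hx1, hx2⟩ := ha
      refine ⟨r • x, ?_, ?_⟩
      · simp [hx1, Finset.smul_sum, Matrix.mulVec_smul]
      · simp [hx2, Finset.smul_sum, Matrix.mulVec_smul]
  have hDcontr : IsContr (graphSpan κ lam D) := by
    intro y hy
    obtain ⟨x, hx1, hx2⟩ := hDspan y hy
    rw [hx1, hx2]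
    have hq := hP.dotProduct_mulVec_nonneg (fun p : Fin n × Fin N => x p.1 p.2)
    rw [quad_pickMatrix] at hq
    have hq' : (0 : ℂ) ≤ ((‖∑ i, tens lam (z i) ((F (z i))ᴴ *ᵥ x i)‖ ^ 2 -
        ‖∑ i, tens κ (z i) (J *ᵥ ((W i)ᴴ *ᵥ x i))‖ ^ 2 : ℝ) : ℂ) := by
      rw [Complex.ofReal_sub, hnormF z x, hnormJ z (fun i => (W i)ᴴ *ᵥ x i),
        ← Finset.sum_sub_distrib]
      simp only [← Finset.sum_sub_distrib, hS1]
      exact hq
    rw [Complex.zero_le_real] at hq'
    exact (abs_le_of_sq_le_sq' (by linarith) (norm_nonneg _)).2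
  have hCPM : ∀ (S : Finset X) (G : X → Matrix (Fin ((m + 1) * N)) (Fin ((m + 1) * N)) ℂ),
      FullContr κ lam S G → ∃ Φ : X → Matrix (Fin ((m + 1) * N)) (Fin ((m + 1) * N)) ℂ,
        (∀ z ∈ S, Φ z = G z) ∧ ∀ S', FullContr κ lam S' Φ :=
    fun S G hG => cp_full κ lam hκ hlam hkl hM S G hG
  obtain ⟨G, hG1, hG2⟩ := tangential κ lam hκ0 hCPM (Finset.univ.image z) D (Set.finite_range _)
    (by
      rintro _ ⟨p, rfl⟩
      exact Finset.mem_image_of_mem z (Finset.mem_univ _)) hDcontr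
  obtain ⟨Φ', hΦ1, hΦ2⟩ := hCPM _ G hG2
  refine ⟨fun w => F w * (Φ' w)ᴴ * J, ?_, ?_⟩
  · -- the multiplier is contractive
    intro n' z'
    have hconj : ∀ w (x : Fin N → ℂ), (F w * (Φ' w)ᴴ * J)ᴴ *ᵥ x =
        Jᴴ *ᵥ (Φ' w *ᵥ ((F w)ᴴ *ᵥ x)) := by
      intro w x
      rw [conjTranspose_mul, conjTranspose_mul, conjTranspose_conjTranspose, mulVec_mulVec,
        mulVec_mulVec, ← Matrix.mul_assoc]
    refine Matrix.PosSemidef.of_dotProduct_mulVec_nonneg (pick_herm hks hls z' _) ?_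
    intro y
    rw [quad_pickMatrix]
    set x : Fin n' → Fin N → ℂ := fun i a => y (i, a) with hx
    have e1 : ∑ i, ∑ j, (l (z' i) (z' j) * h (z' i) (z' j) * (star (x i) ⬝ᵥ x j) -
        k (z' i) (z' j) * (star ((F (z' i) * (Φ' (z' i))ᴴ * J)ᴴ *ᵥ x i) ⬝ᵥ
          ((F (z' j) * (Φ' (z' j))ᴴ * J)ᴴ *ᵥ x j))) =
        (∑ i, ∑ j, l (z' i) (z' j) * (h (z' i) (z' j) - hS (z' i) (z' j)) *
          (star (x i) ⬝ᵥ x j)) +
        ((‖∑ i, tens lam (z' i) ((F (z' i))ᴴ *ᵥ x i)‖ ^ 2 -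
          ‖∑ i, tens κ (z' i) (Jᴴ *ᵥ (Φ' (z' i) *ᵥ ((F (z' i))ᴴ *ᵥ x i)))‖ ^ 2 : ℝ) : ℂ) := by
      rw [Complex.ofReal_sub, hnormF z' x, norm_sq_sum_tens, ← Finset.sum_sub_distrib,
        ← Finset.sum_add_distrib]
      refine Finset.sum_congr rfl fun i _ => ?_
      rw [← Finset.sum_sub_distrib, ← Finset.sum_add_distrib]
      refine Finset.sum_congr rfl fun j _ => ?_
      rw [hconj, hconj, hκ]
      ring
    refine le_of_le_of_eq ?_ e1.symm
    refine add_nonneg ?_ ?_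
    · have g := schur_sum_nonneg (fun i => lam (z' i)) (fun i => ζ (z' i)) x
      simpa only [hlam, hζ] using g
    · rw [Complex.zero_le_real]
      have h1 := norm_sum_tens_Jmat_le κ m N z' (fun i => Φ' (z' i) *ᵥ ((F (z' i))ᴴ *ᵥ x i))
      have h2 := fam_of_full κ lam Φ' hΦ2 z' (fun i => (F (z' i))ᴴ *ᵥ x i)
      have h3 : ‖∑ i, tens κ (z' i) (Jᴴ *ᵥ (Φ' (z' i) *ᵥ ((F (z' i))ᴴ *ᵥ x i)))‖ ^ 2 ≤
          ‖∑ i, tens lam (z' i) ((F (z' i))ᴴ *ᵥ x i)‖ ^ 2 := by
        have := h1.trans h2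
        gcongr
      linarith
  · -- interpolation
    intro i
    apply Matrix.conjTranspose_injective
    have hzi : z i ∈ Finset.univ.image z := Finset.mem_image_of_mem z (Finset.mem_univ _)
    have hcol : ∀ a, (F (z i) * (Φ' (z i))ᴴ * J)ᴴ *ᵥ Pi.single a 1 = (W i)ᴴ *ᵥ Pi.single a 1 := by
      intro a
      have h1 := hG1 _ ⟨(i, a), rfl⟩
      simp only at h1
      rw [conjTranspose_mul, conjTranspose_mul, conjTranspose_conjTranspose, hΦ1 _ hzi,
        ← mulVec_mulVec, ← mulVec_mulVec, h1]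
      exact Jmat_conj_Jmat m N _
    ext r a
    have := congrFun (hcol a) r
    simpa [Matrix.mulVec_single, -Matrix.conjTranspose_mul] using this

end Pool.Agent.Results.MP_1a2443_an.SchurStable
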